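import Pool.Agent.V11229.CutCore

/-!
# The red-blue cut problem in directed graphs is `NP`-complete
-/

namespace Pool.Agent.Results.MP_ac2b6c_lc.DirectedGlobal

open Pool.Agent.NPC Pool.Agent.V11229

/-- A finite directed graph with vertex set `{0, …, n-1}`, without loops and without parallel arcs,
whose arcs are coloured red and blue: `col u v` is `some true` if there is a red arc from `u` to
`v`, `some false` if there is a blue arc from `u` to `v`, and `none` if there is no arc from `u` to
`v`. -/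
structure RBDigraph where
  /-- the number of vertices -/
  n : ℕ
  /-- the coloured adjacency matrix -/
  col : Fin n → Fin n → Option Bool
  loopless : ∀ v, col v v = none

/-- An input of the red-blue cut problem. -/
structure Input where
  /-- the coloured digraph -/
  D : RBDigraph
  /-- the number of red arcs allowed -/
  r : ℕ
  /-- the number of blue arcs allowed -/
  b : ℕ

/-- The number of arcs of colour `c` with tail in `X` and head outside of `X`. -/
noncomputable def cutSize {V : Type} (col : V → V → Option Bool) (c : Bool) (X : Set V) : ℕ :=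
  {a : V × V | a.1 ∈ X ∧ a.2 ∉ X ∧ col a.1 a.2 = some c}.ncard

/-- Some cut `δ⁺(X)`, with `X` nonempty and proper, has at most `r` red arcs and at most `b` blue
arcs. -/
def RedBlueCut (I : Input) : Prop :=
  ∃ X : Set (Fin I.D.n), X.Nonempty ∧ X ≠ Set.univ ∧ cutSize I.D.col true X ≤ I.r ∧
    cutSize I.D.col false X ≤ I.b

/-- An input as a tuple: the coloured adjacency matrix and the two numbers. -/
def Input.code (I : Input) : LMat (Option Bool) × ℕ × ℕ :=
  (⟨I.D.n, I.D.col⟩, I.r, I.b)

theorem Input.code_injective : Function.Injective Input.code := by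
  rintro ⟨⟨n, col, h2⟩, r, b⟩ ⟨⟨n', col', h2'⟩, r', b'⟩ h
  simp only [Input.code, Prod.mk.injEq, LMat.mk.injEq] at h
  obtain ⟨⟨rfl, h3⟩, rfl, rfl⟩ := h
  have h3' := eq_of_heq h3
  subst h3'
  rfl

/-- An input is encoded by its coloured adjacency matrix and the two numbers (in binary). -/
instance : TEnc Input := ⟨fun I => toT I.code, fun _ _ h => Input.code_injective (TEnc.inj h)⟩

/-- The problem on an arbitrary vertex set. -/
def GCut {V : Type} (col : V → V → Option Bool) (r b : ℕ) : Prop :=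
  ∃ X : Set V, X.Nonempty ∧ X ≠ Set.univ ∧ outCount (fun u v => col u v = some true) X ≤ r ∧
    outCount (fun u v => col u v = some false) X ≤ b

theorem redBlueCut_iff (I : Input) : RedBlueCut I ↔ GCut I.D.col I.r I.b := Iff.rfl

theorem GCut.equiv {V W : Type} (e : V ≃ W) {col : V → V → Option Bool}
    {col' : W → W → Option Bool} (h : ∀ x y, col x y = col' (e x) (e y)) {r b : ℕ}
    (hc : GCut col r b) : GCut col' r b := by
  obtain ⟨X, h1, h2, h3, h4⟩ := hc
  refine ⟨e '' X, h1.image _, ?_, ?_, ?_⟩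
  · intro h5
    apply h2
    rw [← Set.image_univ_of_surjective e.surjective] at h5
    exact e.injective.image_injective h5
  · rw [← outCount_equiv e (fun u v => col u v = some true) _ (fun x y => by rw [h])]
    exact h3
  · rw [← outCount_equiv e (fun u v => col u v = some false) _ (fun x y => by rw [h])]
    exact h4

theorem GCut.equiv_iff {V W : Type} (e : V ≃ W) {col : V → V → Option Bool}
    {col' : W → W → Option Bool} (h : ∀ x y, col x y = col' (e x) (e y)) {r b : ℕ} :
    GCut col r b ↔ GCut col' r b :=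
  ⟨GCut.equiv e h, GCut.equiv e.symm (fun x y => by
      rw [h, e.apply_symm_apply, e.apply_symm_apply])⟩

/-! ### Membership in `NP` -/

/-- Correctness of the code of an input. -/
def ok (x : LMat (Option Bool) × ℕ × ℕ) : Bool :=
  (List.range x.1.n).all (fun i => decide (x.1.ent none i i = none))

/-- The verifier: a set of vertices is given by a list of truth values. -/
def ver (x : (LMat (Option Bool) × ℕ × ℕ) × List Bool) : Bool :=
  ((List.range x.1.1.n).any (fun i => x.2.getD i false) &&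
    (List.range x.1.1.n).any (fun i => !(x.2.getD i false))) &&
  (decide (cutL x.1.1 true x.2 ≤ x.1.2.1) && decide (cutL x.1.1 false x.2 ≤ x.1.2.2))

theorem ok_poly : Poly ok := by
  unfold ok
  exact Poly.allRange (n := fun x : LMat (Option Bool) × ℕ × ℕ => x.1.n)
    (p := fun x i => decide (x.1.ent none i i = none)) (UPoly.lmat_n (by fun_prop)) (by fun_prop)

theorem ver_poly : Poly ver := by
  unfold ver
  have h1 : Poly (fun x : (LMat (Option Bool) × ℕ × ℕ) × List Bool =>
      (List.range x.1.1.n).any (fun i => x.2.getD i false)) :=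
    Poly.anyRange (n := fun x : (LMat (Option Bool) × ℕ × ℕ) × List Bool => x.1.1.n)
      (p := fun x i => x.2.getD i false) (UPoly.lmat_n (by fun_prop)) (by fun_prop)
  have h2 : Poly (fun x : (LMat (Option Bool) × ℕ × ℕ) × List Bool =>
      (List.range x.1.1.n).any (fun i => !(x.2.getD i false))) :=
    Poly.anyRange (n := fun x : (LMat (Option Bool) × ℕ × ℕ) × List Bool => x.1.1.n)
      (p := fun x i => !(x.2.getD i false)) (UPoly.lmat_n (by fun_prop)) (by fun_prop)
  fun_prop

/-- The problem is in `NP`. -/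
theorem inNPP_redBlueCut : InNPP RedBlueCut := by
  refine inNPP_sub Input.code (fun _ => rfl) ver_poly (4 * Polynomial.X + 1) ok ok_poly ?_ ?_ ?_
  · rintro ⟨⟨n, f⟩, r, b⟩ h
    simp only [ok, List.all_eq_true, List.mem_range, decide_eq_true_eq] at h
    refine ⟨⟨⟨n, f, fun v => ?_⟩, r, b⟩, rfl⟩
    have := h v v.isLt
    rwa [LMat.ent_fin ⟨n, f⟩ none v v] at this
  · rintro ⟨⟨n, col, h2⟩, r, b⟩
    simp only [ok, Input.code, List.all_eq_true, List.mem_range, decide_eq_true_eq]
    intro i hi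
    rw [LMat.ent_lt ⟨n, col⟩ none hi hi]
    exact h2 _
  · intro I
    rw [redBlueCut_iff]
    constructor
    · rintro ⟨X, h1, h2, h3, h4⟩
      refine ⟨indL X, ?_, ?_⟩
      · have e1 := sz_indL X
        have e3 : I.D.n < sz (⟨I.D.n, I.D.col⟩ : LMat (Option Bool)) := by
          have := length_lt_sz (⟨I.D.n, I.D.col⟩ : LMat (Option Bool)).rows
          rw [LMat.length_rows] at this
          exact this
        have e4 : sz (⟨I.D.n, I.D.col⟩ : LMat (Option Bool)) ≤ sz I.code := by
          unfold Input.code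
          rw [sz_pair]
          omega
        simp only [Polynomial.eval_add, Polynomial.eval_mul, Polynomial.eval_X,
          Polynomial.eval_ofNat, Polynomial.eval_one]
        omega
      · simp only [ver, Input.code, Bool.and_eq_true, decide_eq_true_eq, List.any_eq_true,
          List.mem_range]
        refine ⟨⟨?_, ?_⟩, ?_, ?_⟩
        · obtain ⟨v, hv⟩ := h1
          exact ⟨v, v.isLt, (indL_getD X v).2 hv⟩
        · obtain ⟨v, hv⟩ := (Set.ne_univ_iff_exists_notMem X).1 h2
          refine ⟨v, v.isLt, ?_⟩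
          have := (indL_getD X v).not.2 hv
          simpa using this
        · rw [cutL_eq]
          simp only [indL_set]
          exact h3
        · rw [cutL_eq]
          simp only [indL_set]
          exact h4
    · rintro ⟨l, _, h⟩
      simp only [ver, Input.code, Bool.and_eq_true, decide_eq_true_eq, List.any_eq_true,
          List.mem_range, cutL_eq] at h
      obtain ⟨⟨⟨v, hv, h1⟩, ⟨w, hw, h2⟩⟩, h3, h4⟩ := h
      refine ⟨{v : Fin I.D.n | l.getD v false = true}, ⟨⟨v, hv⟩, h1⟩, ?_, h3, h4⟩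
      rw [Set.ne_univ_iff_exists_notMem]
      refine ⟨⟨w, hw⟩, ?_⟩
      simp only [Set.mem_ofPred_eq]
      simpa using h2

/-! ### The reduction -/

section Red

open Finset

/-- labels of the vertices: `(0,i)` are the vertices of `S`, `(1,i)`, `(3,j)`, `(4,j)` those of
`T`, and `(2,v)` is the copy of `v` -/
abbrev Lab : Type := ℕ × ℕ

/-- red arcs -/
def redB (M : LMat Bool) (x y : Lab) : Bool :=
  (!(decide (x = y))) && (decide (y.1 = 0) || (
    (decide (x.1 = 1) || (decide (x.1 = 3) || decide (x.1 = 4))) ||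
    (decide (x.1 = 2) && ((decide (y.1 = 2) && M.ent false x.2 y.2) ||
      ((decide (y.1 = 3) && !(M.ent false x.2 y.2)) || decide (y.1 = 4))))))

/-- blue arcs -/
def blueB (x y : Lab) : Bool := decide (x = (0, 0)) && (decide (y = (1, 0)) || decide (y.1 = 2))

/-- the colouring -/
def lcol (M : LMat Bool) (x y : Lab) : Option Bool :=
  if redB M x y = true then some true else if blueB x y = true then some false else none

theorem lcol_self (M : LMat Bool) (x : Lab) : lcol M x x = none := by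
  have h1 : redB M x x = false := by simp [redB]
  have h2 : blueB x x = false := by
    unfold blueB
    by_cases h : x = (0, 0)
    · subst h; simp
    · simp [h]
  simp [lcol, h1, h2]

/-- the size of the big parts -/
def bg (n : ℕ) : ℕ := (n + 2) * (n + 2)

/-- the list of the vertices -/
def vsL (n : ℕ) : List Lab :=
  ([0, 1] ×ˢ List.range (bg n)) ++ ([2, 3, 4] ×ˢ List.range n)

/-- the instance of the cut problem -/
def red (I : LMat Bool × ℕ) : Input where
  D := ⟨(vsL I.1.n).length, fun i j => lcol I.1 (vsL I.1.n)[i] (vsL I.1.n)[j],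
    fun _ => lcol_self _ _⟩
  r := 2 * I.1.n * I.2 + I.2 - I.2 * I.2
  b := I.1.n + 1 - I.2

theorem vsL_poly : Poly (fun I : LMat Bool × ℕ => vsL I.1.n) := by
  unfold vsL bg
  have h : Poly (fun I : LMat Bool × ℕ => List.range I.1.n) :=
    UPoly.range (UPoly.lmat_n (by fun_prop))
  have h0 : UPoly (fun I : LMat Bool × ℕ => I.1.n + 2) :=
    UPoly.add (UPoly.lmat_n (by fun_prop)) (UPoly.const 2)
  have h' : Poly (fun I : LMat Bool × ℕ => List.range ((I.1.n + 2) * (I.1.n + 2))) :=
    UPoly.range (UPoly.mul h0 h0)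
  fun_prop

theorem lcol_poly {α : Type} [TEnc α] {M : α → LMat Bool} {x y : α → Lab} (hM : Poly M)
    (hx : Poly x) (hy : Poly y) : Poly (fun a => lcol (M a) (x a) (y a)) := by
  unfold lcol redB blueB
  fun_prop

theorem red_poly : Poly red := by
  have h1 : Poly (fun I : LMat Bool × ℕ => (red I).code) := by
    have h2 : Poly (fun I : LMat Bool × ℕ => LMat.ofList (vsL I.1.n) (lcol I.1)) :=
      Poly.ofList (ad := fun I : LMat Bool × ℕ => lcol I.1) vsL_poly
        (lcol_poly (by fun_prop) (by fun_prop) (by fun_prop))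
    have h3 : Poly (fun I : LMat Bool × ℕ => 2 * I.1.n * I.2 + I.2 - I.2 * I.2) := by fun_prop
    have h4 : Poly (fun I : LMat Bool × ℕ => I.1.n + 1 - I.2) := by fun_prop
    exact NPC.Poly.pair h2 (NPC.Poly.pair h3 h4)
  exact h1

/-- the vertices, as a type -/
abbrev VT (n : ℕ) : Type := Fin (bg n) ⊕ (Fin n ⊕ (Fin (bg n) ⊕ (Bool × Fin n)))

/-- the labels -/
def lab {n : ℕ} : VT n → Lab
  | Sum.inl i => (0, i)
  | Sum.inr (Sum.inl v) => (2, v)
  | Sum.inr (Sum.inr (Sum.inl i)) => (1, i)
  | Sum.inr (Sum.inr (Sum.inr (c, j))) => (if c = true then 4 else 3, j)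

theorem lab_injective {n : ℕ} : Function.Injective (lab : VT n → Lab) := by
  rintro (i | (v | (i | ⟨(_ | _), j⟩))) (i' | (v' | (i' | ⟨(_ | _), j'⟩))) h <;>
    simp [lab] at h ⊢ <;> exact Fin.ext h

theorem vsL_nodup (n : ℕ) : (vsL n).Nodup := by
  unfold vsL
  rw [List.nodup_append]
  refine ⟨List.Nodup.product (by simp) List.nodup_range,
    List.Nodup.product (by simp) List.nodup_range, ?_⟩
  intro a ha b hb
  have h1 := (List.mem_product.1 ha).1
  have h2 := (List.mem_product.1 hb).1
  rintro rfl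
  simp only [List.mem_cons, List.not_mem_nil, or_false] at h1 h2
  omega

theorem mem_vsL {n : ℕ} (z : Lab) : z ∈ vsL n ↔ ∃ x : VT n, lab x = z := by
  unfold vsL
  rw [List.mem_append]
  constructor
  · obtain ⟨a, j⟩ := z
    rintro (h | h)
    · obtain ⟨h1, h2⟩ := List.mem_product.1 h
      simp only [List.mem_cons, List.not_mem_nil, or_false] at h1
      rw [List.mem_range] at h2
      rcases h1 with rfl | rfl
      · exact ⟨Sum.inl ⟨j, h2⟩, rfl⟩
      · exact ⟨Sum.inr (Sum.inr (Sum.inl ⟨j, h2⟩)), rfl⟩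
    · obtain ⟨h1, h2⟩ := List.mem_product.1 h
      simp only [List.mem_cons, List.not_mem_nil, or_false] at h1
      rw [List.mem_range] at h2
      rcases h1 with rfl | rfl | rfl
      · exact ⟨Sum.inr (Sum.inl ⟨j, h2⟩), rfl⟩
      · exact ⟨Sum.inr (Sum.inr (Sum.inr (false, ⟨j, h2⟩))), by simp [lab]⟩
      · exact ⟨Sum.inr (Sum.inr (Sum.inr (true, ⟨j, h2⟩))), by simp [lab]⟩
  · rintro ⟨x, rfl⟩
    rcases x with i | (v | (i | ⟨c, j⟩))
    · left
      exact List.mem_product.2 ⟨by simp, List.mem_range.2 i.isLt⟩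
    · right
      exact List.mem_product.2 ⟨by simp, List.mem_range.2 v.isLt⟩
    · left
      exact List.mem_product.2 ⟨by simp, List.mem_range.2 i.isLt⟩
    · right
      exact List.mem_product.2 ⟨by cases c <;> simp, List.mem_range.2 j.isLt⟩

theorem card_le_outCount {V ι : Type} [Finite V] [Fintype ι] {R : V → V → Prop} {X : Set V}
    (f : ι → V × V) (hf : Function.Injective f)
    (h : ∀ i, (f i).1 ∈ X ∧ (f i).2 ∉ X ∧ R (f i).1 (f i).2) :
    Fintype.card ι ≤ outCount R X := by
  unfold outCount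
  have h1 : Set.range f ⊆ {p : V × V | p.1 ∈ X ∧ p.2 ∉ X ∧ R p.1 p.2} := by
    rintro _ ⟨i, rfl⟩
    exact h i
  have h2 := Set.ncard_le_ncard h1 (Set.toFinite _)
  rwa [← Set.image_univ, Set.ncard_image_of_injective _ hf, Set.ncard_univ,
    Nat.card_eq_fintype_card] at h2

/-- A large set of vertices with arcs from all vertices is inside every nonempty set with few
outgoing arcs. -/
theorem in_class {V ι : Type} [Finite V] [Fintype ι] {R : V → V → Prop} {X : Set V}
    (s : ι → V) (hs : Function.Injective s) (hR : ∀ x i, x ≠ s i → R x (s i))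
    (hX : X.Nonempty) (h : outCount R X + 1 < Fintype.card ι) (i : ι) : s i ∈ X := by
  classical
  by_contra hi
  by_cases hj : ∃ j, s j ∈ X
  · obtain ⟨j, hj⟩ := hj
    have hij : i ≠ j := fun h => hi (h ▸ hj)
    have h1 := card_le_outCount (R := R) (X := X) (ι := {l : ι // l ≠ i})
      (fun l => if s l.1 ∈ X then (s l.1, s i) else (s j, s l.1)) ?_ ?_
    · have h2 : Fintype.card {l : ι // l ≠ i} = Fintype.card ι - 1 := by
        simp [Fintype.card_subtype_compl]
      omega
    · intro l l' hll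
      simp only at hll
      apply Subtype.ext
      split_ifs at hll with c1 c2 c2
      · exact hs (Prod.ext_iff.1 hll).1
      · exact absurd (hs (Prod.ext_iff.1 hll).2) l'.2.symm
      · exact absurd (hs (Prod.ext_iff.1 hll).2) l.2
      · exact hs (Prod.ext_iff.1 hll).2
    · intro l
      by_cases c1 : s l.1 ∈ X
      · rw [if_pos c1]
        exact ⟨c1, hi, hR _ _ (fun h => l.2 (hs h))⟩
      · rw [if_neg c1]
        exact ⟨hj, c1, hR _ _ (fun h => c1 (h ▸ hj))⟩
  · push Not at hj
    obtain ⟨x, hx⟩ := hX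
    have h1 := card_le_outCount (R := R) (X := X) (fun l : ι => (x, s l))
      (fun l l' hll => hs (Prod.ext_iff.1 hll).2)
      (fun l => ⟨hx, hj l, hR _ _ (fun h => hj l (h ▸ hx))⟩)
    omega

theorem outCount_compl {V : Type} (R : V → V → Prop) (X : Set V) :
    outCount R X = outCount (fun u v => R v u) Xᶜ := by
  unfold outCount
  rw [← Set.ncard_image_of_injective _ Prod.swap_injective]
  congr 1
  ext ⟨a, b⟩
  simp only [Set.mem_image, Set.mem_ofPred_eq, Prod.exists, Prod.swap_prod_mk, Prod.mk.injEq,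
    Set.mem_compl_iff, not_not]
  constructor
  · rintro ⟨x, y, ⟨h1, h2, h3⟩, rfl, rfl⟩
    exact ⟨h2, h1, h3⟩
  · rintro ⟨h1, h2, h3⟩
    exact ⟨b, a, ⟨h2, h1, h3⟩, rfl, rfl⟩

/-- A large set of vertices with arcs to all vertices is outside of every proper set with few
outgoing arcs. -/
theorem out_class {V ι : Type} [Finite V] [Fintype ι] {R : V → V → Prop} {X : Set V}
    (s : ι → V) (hs : Function.Injective s) (hR : ∀ x i, x ≠ s i → R (s i) x)
    (hX : X ≠ Set.univ) (h : outCount R X + 1 < Fintype.card ι) (i : ι) : s i ∉ X := by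
  rw [outCount_compl] at h
  exact in_class (R := fun u v => R v u) s hs hR (Set.nonempty_compl.2 hX) h i

variable (M : LMat Bool)

/-- red arcs between the vertices -/
def RR (x y : VT M.n) : Prop := lcol M (lab x) (lab y) = some true

/-- blue arcs between the vertices -/
def BB (x y : VT M.n) : Prop := lcol M (lab x) (lab y) = some false

/-- the arcs from `v` to the part `T` -/
def okp (c : Bool) (v j : Fin M.n) : Prop := c = true ∨ M.f v j = false

variable {M}

theorem RR_iff (x y : VT M.n) : RR M x y ↔ redB M (lab x) (lab y) = true := by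
  unfold RR lcol
  by_cases h : redB M (lab x) (lab y) = true
  · simp [h]
  · rw [if_neg h]
    split_ifs <;> simp [h]

theorem RR_toS (x : VT M.n) (i : Fin (bg M.n)) (h : x ≠ Sum.inl i) : RR M x (Sum.inl i) := by
  rw [RR_iff]
  have h1 : lab x ≠ lab (Sum.inl i) := fun hh => h (lab_injective hh)
  simp only [redB, h1, decide_false, Bool.not_false, Bool.true_and]
  simp [lab]

theorem RR_fromT (x : VT M.n) (i : Fin (bg M.n) ⊕ (Bool × Fin M.n))
    (h : x ≠ Sum.inr (Sum.inr i)) : RR M (Sum.inr (Sum.inr i)) x := by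
  rw [RR_iff]
  have h1 : lab (Sum.inr (Sum.inr i)) ≠ lab x := fun hh => h (lab_injective hh).symm
  simp only [redB, h1, decide_false, Bool.not_false, Bool.true_and]
  rcases i with (i | ⟨(_ | _), j⟩) <;> simp [lab]

theorem RR_vv (h : IsAdj M) (v w : Fin M.n) :
    RR M (Sum.inr (Sum.inl v)) (Sum.inr (Sum.inl w)) ↔ M.f v w = true := by
  rw [RR_iff]
  have h1 := LMat.ent_fin M false v w
  simp only [redB, lab, h1]
  by_cases hvw : v = w
  · subst hvw
    simp [h.2 v]
  · have h3 : (v : ℕ) ≠ w := fun h => hvw (Fin.ext h)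
    simp [h3]

theorem RR_vT (v : Fin M.n) (c : Bool) (j : Fin M.n) :
    RR M (Sum.inr (Sum.inl v)) (Sum.inr (Sum.inr (Sum.inr (c, j)))) ↔ okp M c v j := by
  rw [RR_iff]
  have h1 := LMat.ent_fin M false v j
  simp only [redB, lab, h1, okp]
  cases c <;> simp

theorem RR_vT1 (v : Fin M.n) (i : Fin (bg M.n)) :
    ¬ RR M (Sum.inr (Sum.inl v)) (Sum.inr (Sum.inr (Sum.inl i))) := by
  rw [RR_iff]
  simp [redB, lab]

theorem RR_S (i : Fin (bg M.n)) (y) : ¬ RR M (Sum.inl i) (Sum.inr y) := by
  rw [RR_iff]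
  rcases y with (v | (i | ⟨(_ | _), j⟩)) <;> simp [redB, lab]

theorem bg_pos (n : ℕ) : 0 < bg n := by unfold bg; positivity

/-- a vertex of `S` -/
def s0 : VT M.n := Sum.inl ⟨0, bg_pos _⟩

theorem BB_st : BB M s0 (Sum.inr (Sum.inr (Sum.inl ⟨0, bg_pos _⟩))) := by
  simp [BB, lcol, redB, blueB, lab, s0]

theorem BB_sv (v : Fin M.n) : BB M s0 (Sum.inr (Sum.inl v)) := by
  simp [BB, lcol, redB, blueB, lab, s0]

theorem BB_only {x y : VT M.n} (h : BB M x y) : x = s0 ∧
    (y = Sum.inr (Sum.inr (Sum.inl ⟨0, bg_pos _⟩)) ∨ ∃ v, y = Sum.inr (Sum.inl v)) := by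
  have h2 : blueB (lab x) (lab y) = true := by
    by_contra hc
    unfold BB lcol at h
    by_cases h1 : redB M (lab x) (lab y) = true
    · rw [if_pos h1] at h
      simp at h
    · rw [if_neg h1, if_neg hc] at h
      simp at h
  simp only [blueB, Bool.and_eq_true, Bool.or_eq_true, decide_eq_true_eq] at h2
  obtain ⟨h3, h4⟩ := h2
  constructor
  · apply lab_injective
    rw [h3]
    rfl
  · rcases h4 with h4 | h4
    · left
      apply lab_injective
      rw [h4]
      rfl
    · right
      rcases y with (i | (v | (i | ⟨(_ | _), j⟩)))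
      all_goals first | exact ⟨_, rfl⟩ | simp [lab] at h4

open Classical in
/-- A cut has many red arcs. -/
theorem cost_le (h : IsAdj M) (X : Set (VT M.n))
    (ht : ∀ j, (Sum.inr (Sum.inr (Sum.inr j)) : VT M.n) ∉ X) :
    cost M.f (univ.filter (fun v : Fin M.n => Sum.inr (Sum.inl v) ∈ X)) ≤
      outCount (RR M) X := by
  rw [outCount_eq_sum]
  set g : VT M.n → VT M.n → ℕ := fun x y => if x ∈ X ∧ y ∉ X ∧ RR M x y then 1 else 0 with hg
  have e1 : ∑ v, ∑ y, g (Sum.inr (Sum.inl v)) y ≤ ∑ x, ∑ y, g x y := by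
    rw [Fintype.sum_sum_type (f := fun x => ∑ y, g x y), Fintype.sum_sum_type]
    omega
  refine le_trans ?_ e1
  unfold cost
  rw [Finset.sum_filter]
  refine Finset.sum_le_sum fun v _ => ?_
  by_cases hv : Sum.inr (Sum.inl v) ∈ X
  · rw [if_pos hv]
    rw [Fintype.sum_sum_type, Fintype.sum_sum_type, Fintype.sum_sum_type]
    have e6 : (∑ w, if w ∉ univ.filter (fun v : Fin M.n => Sum.inr (Sum.inl v) ∈ X) ∧
        M.f v w = true then 1 else 0) = ∑ w, g (Sum.inr (Sum.inl v)) (Sum.inr (Sum.inl w)) := by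
      refine Finset.sum_congr rfl fun w _ => ?_
      simp only [hg, RR_vv h, hv, true_and, mem_filter, mem_univ]
    have e7 : (∑ w, if M.f v w = false then 1 else 0) + M.n =
        ∑ m, g (Sum.inr (Sum.inl v)) (Sum.inr (Sum.inr (Sum.inr m))) := by
      rw [Fintype.sum_prod_type, Fintype.sum_bool]
      simp only [hg, RR_vT, hv, true_and, ht, not_false_eq_true]
      simp [okp, add_comm]
    omega
  · rw [if_neg hv]
    exact Nat.zero_le _

open Classical in
/-- A cut has many blue arcs. -/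
theorem blue_ge (X : Set (VT M.n)) (hs : s0 ∈ X)
    (ht : (Sum.inr (Sum.inr (Sum.inl ⟨0, bg_pos _⟩)) : VT M.n) ∉ X) :
    M.n + 1 - (univ.filter (fun v : Fin M.n => Sum.inr (Sum.inl v) ∈ X)).card ≤
      outCount (BB M) X := by
  rw [outCount_eq_sum]
  have h1 : M.n + 1 - (univ.filter (fun v : Fin M.n => Sum.inr (Sum.inl v) ∈ X)).card ≤
      ∑ y, if s0 ∈ X ∧ y ∉ X ∧ BB M s0 y then 1 else 0 := by
    rw [Fintype.sum_sum_type, Fintype.sum_sum_type, Fintype.sum_sum_type]
    have h2 := Finset.card_filter_add_card_filter_not (s := (univ : Finset (Fin M.n)))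
      (p := fun v => Sum.inr (Sum.inl v) ∈ X)
    rw [Finset.card_univ, Fintype.card_fin] at h2
    have h3 : (∑ v : Fin M.n, if s0 ∈ X ∧ (Sum.inr (Sum.inl v) : VT M.n) ∉ X ∧
        BB M s0 (Sum.inr (Sum.inl v)) then 1 else 0) =
        (univ.filter (fun v : Fin M.n => ¬ (Sum.inr (Sum.inl v) : VT M.n) ∈ X)).card := by
      simp only [hs, true_and, BB_sv, and_true]
      rw [← Finset.card_filter]
    have h4 : 1 ≤ ∑ i : Fin (bg M.n), if s0 ∈ X ∧ (Sum.inr (Sum.inr (Sum.inl i)) : VT M.n) ∉ X ∧
        BB M s0 (Sum.inr (Sum.inr (Sum.inl i))) then 1 else 0 := by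
      have h5 := Finset.single_le_sum (f := fun i : Fin (bg M.n) =>
        if s0 ∈ X ∧ (Sum.inr (Sum.inr (Sum.inl i)) : VT M.n) ∉ X ∧
        BB M s0 (Sum.inr (Sum.inr (Sum.inl i))) then 1 else 0) (fun _ _ => Nat.zero_le _)
        (Finset.mem_univ ⟨0, bg_pos _⟩)
      rw [if_pos ⟨hs, ht, BB_st⟩] at h5
      exact h5
    omega
  refine h1.trans ?_
  exact Finset.single_le_sum (f := fun x => ∑ y, if x ∈ X ∧ y ∉ X ∧ BB M x y then 1 else 0)
    (fun _ _ => Nat.zero_le _) (Finset.mem_univ s0)

/-- the cut of a set of vertices -/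
def cutOf (K : Finset (Fin M.n)) : Set (VT M.n) :=
  {x | (∃ i, x = Sum.inl i) ∨ ∃ v ∈ K, x = Sum.inr (Sum.inl v)}

theorem cutOf_S (K : Finset (Fin M.n)) (i) : (Sum.inl i : VT M.n) ∈ cutOf K := Or.inl ⟨i, rfl⟩

theorem cutOf_v (K : Finset (Fin M.n)) (v) : (Sum.inr (Sum.inl v) : VT M.n) ∈ cutOf K ↔ v ∈ K := by
  simp [cutOf]

theorem cutOf_T (K : Finset (Fin M.n)) (i) : (Sum.inr (Sum.inr i) : VT M.n) ∉ cutOf K := by
  simp [cutOf]

theorem red_cutOf (h : IsAdj M) (K : Finset (Fin M.n)) :
    outCount (RR M) (cutOf K) ≤ cost M.f K := by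
  classical
  rw [outCount_eq_sum, Fintype.sum_sum_type, Fintype.sum_sum_type]
  have z1 : (∑ i, ∑ y, if (Sum.inl i : VT M.n) ∈ cutOf K ∧ y ∉ cutOf K ∧
      RR M (Sum.inl i) y then 1 else 0) = 0 := by
    refine Finset.sum_eq_zero fun i _ => Finset.sum_eq_zero fun y _ => ?_
    rw [if_neg]
    rintro ⟨_, h2, h3⟩
    rcases y with i | y
    · exact h2 (cutOf_S K i)
    · exact RR_S _ _ h3
  have z2 : (∑ m, ∑ y, if (Sum.inr (Sum.inr m) : VT M.n) ∈ cutOf K ∧ y ∉ cutOf K ∧
      RR M (Sum.inr (Sum.inr m)) y then 1 else 0) = 0 := by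
    refine Finset.sum_eq_zero fun b _ => Finset.sum_eq_zero fun y _ => ?_
    simp [cutOf_T]
  rw [z1, z2, zero_add, add_zero]
  unfold cost
  rw [← Finset.sum_filter_add_sum_filter_not (univ : Finset (Fin M.n)) (fun v => v ∈ K)]
  have z3 : (∑ v ∈ univ.filter (fun v : Fin M.n => v ∉ K), ∑ y,
      if (Sum.inr (Sum.inl v) : VT M.n) ∈ cutOf K ∧ y ∉ cutOf K ∧
      RR M (Sum.inr (Sum.inl v)) y then 1 else 0) = 0 := by
    refine Finset.sum_eq_zero fun v hv' => Finset.sum_eq_zero fun y _ => ?_
    rw [Finset.mem_filter] at hv'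
    simp [cutOf_v, hv'.2]
  rw [z3, add_zero]
  have z4 : univ.filter (fun v : Fin M.n => v ∈ K) = K := by ext; simp
  rw [z4]
  refine Finset.sum_le_sum fun v hvK => ?_
  rw [Fintype.sum_sum_type, Fintype.sum_sum_type, Fintype.sum_sum_type]
  have y5 : ∀ x : Bool × Fin M.n, RR M (Sum.inr (Sum.inl v)) (Sum.inr (Sum.inr (Sum.inr x))) ↔
      okp M x.1 v x.2 := fun x => RR_vT v x.1 x.2
  simp only [cutOf_S, cutOf_v, hvK, cutOf_T, true_and, not_true_eq_false, false_and, if_false,
    not_false_eq_true, RR_vv h, y5, RR_vT1, Finset.sum_const_zero, zero_add]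
  rw [Fintype.sum_prod_type, Fintype.sum_bool]
  simp [okp, add_comm]

theorem blue_cutOf (K : Finset (Fin M.n)) :
    outCount (BB M) (cutOf K) ≤ M.n + 1 - K.card := by
  classical
  have h1 : {p : VT M.n × VT M.n | p.1 ∈ cutOf K ∧ p.2 ∉ cutOf K ∧ BB M p.1 p.2} ⊆
      ((insert (s0, Sum.inr (Sum.inr (Sum.inl ⟨0, bg_pos _⟩)))
        (Kᶜ.image (fun v => (s0, Sum.inr (Sum.inl v)))) : Finset (VT M.n × VT M.n)) :
        Set (VT M.n × VT M.n)) := by
    rintro ⟨x, y⟩ ⟨h2, h3, h4⟩
    simp only at h2 h3 h4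
    obtain ⟨rfl, h5⟩ := BB_only h4
    rw [Finset.mem_coe, Finset.mem_insert, Finset.mem_image]
    rcases h5 with rfl | ⟨v, rfl⟩
    · left; rfl
    · right
      refine ⟨v, ?_, rfl⟩
      rw [Finset.mem_compl]
      intro hv
      exact h3 ((cutOf_v K v).2 hv)
  have h2 := Set.ncard_le_ncard h1 (Finset.finite_toSet _)
  rw [Set.ncard_coe_finset] at h2
  have h3 := Finset.card_insert_le (s0, (Sum.inr (Sum.inr (Sum.inl ⟨0, bg_pos _⟩)) : VT M.n))
    (Kᶜ.image (fun v => ((s0 : VT M.n), (Sum.inr (Sum.inl v) : VT M.n))))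
  have h4 : (Kᶜ.image (fun v => ((s0 : VT M.n), (Sum.inr (Sum.inl v) : VT M.n)))).card ≤
      Kᶜ.card := Finset.card_image_le
  rw [Finset.card_compl, Fintype.card_fin] at h4
  have hn : K.card ≤ M.n := by simpa using Finset.card_le_univ K
  unfold outCount
  omega

/-- Correctness on the vertex type. -/
theorem core (h : IsAdj M) (k : ℕ) :
    GCut (fun x y : VT M.n => lcol M (lab x) (lab y))
      (2 * M.n * k + k - k * k) (M.n + 1 - k) ↔ HasK M.f k := by
  classical
  constructor
  · rintro ⟨X, hne, hun, h1, h2⟩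
    have hr : 2 * M.n * k + k - k * k ≤ M.n * M.n + M.n := by
      rw [Nat.sub_le_iff_le_add]
      rcases le_total k M.n with hk | hk
      · obtain ⟨d, hd⟩ : ∃ d, M.n = k + d := ⟨M.n - k, by omega⟩
        rw [hd]
        nlinarith
      · obtain ⟨d, hd⟩ : ∃ d, k = M.n + d := ⟨k - M.n, by omega⟩
        rw [hd]
        nlinarith [Nat.le_mul_self d]
    have hbg : (2 * M.n * k + k - k * k) + 1 < bg M.n := by
      unfold bg
      nlinarith
    have h1' : outCount (RR M) X ≤ 2 * M.n * k + k - k * k := h1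
    have h2' : outCount (BB M) X ≤ M.n + 1 - k := h2
    have hS : ∀ i, (Sum.inl i : VT M.n) ∈ X :=
      in_class (R := RR M) (ι := Fin (bg M.n)) (fun i => Sum.inl i)
        (fun i j h => Sum.inl_injective h) (fun x i hx => RR_toS x i hx) hne
        (by rw [Fintype.card_fin]; omega)
    have hT : ∀ i, (Sum.inr (Sum.inr i) : VT M.n) ∉ X :=
      out_class (R := RR M) (ι := Fin (bg M.n) ⊕ (Bool × Fin M.n))
        (fun i => Sum.inr (Sum.inr i))
        (fun i j h => Sum.inr_injective (Sum.inr_injective h))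
        (fun x i hx => RR_fromT x i hx) hun
        (by rw [Fintype.card_sum, Fintype.card_fin]; omega)
    have e1 := (cost_le h X (fun j => hT (Sum.inr j))).trans h1'
    have e2 := (blue_ge X (hS _) (hT _)).trans h2'
    set A := univ.filter (fun v : Fin M.n => (Sum.inr (Sum.inl v) : VT M.n) ∈ X) with hA
    have hn : A.card ≤ M.n := by simpa using Finset.card_le_univ A
    obtain ⟨h3, h4⟩ := clique_of_cost (k := k) h.2 (by omega) e1
    exact ⟨A, h3, h4⟩
  · rintro ⟨K, hK, hK2⟩
    refine ⟨cutOf K, ⟨s0, cutOf_S K _⟩, ?_, ?_, ?_⟩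
    · intro h5
      exact cutOf_T K (Sum.inl ⟨0, bg_pos _⟩) (h5 ▸ Set.mem_univ _)
    · refine (red_cutOf h K).trans ?_
      rw [cost_clique h.2 hK2, hK]
    · rw [← hK]
      exact blue_cutOf K

theorem red_iff (I : LMat Bool × ℕ) (h : IsAdj I.1) : RedBlueCut (red I) ↔ CliqueM I := by
  obtain ⟨M, k⟩ := I
  rw [redBlueCut_iff]
  obtain ⟨e, he⟩ := R671.exists_equiv (vsL M.n) (vsL_nodup M.n) (lab : VT M.n → Lab)
    lab_injective mem_vsL
  refine Iff.trans ?_ (core h k)
  refine GCut.equiv_iff e (fun x y => ?_)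
  rw [he, he]
  rfl

theorem npHard_redBlueCut : NPHardP RedBlueCut :=
  (hardPr_cliqueM.trans (Pr' := fun _ => True) red_poly (fun _ _ => trivial)
    (fun I h => (red_iff I h).symm)).toHardI.toNPHardP

end Red

/-- **The red-blue cut problem in directed graphs is `NP`-complete.** -/
theorem result : InNPP RedBlueCut ∧ NPHardP RedBlueCut := ⟨inNPP_redBlueCut, npHard_redBlueCut⟩

end Pool.Agent.Results.MP_ac2b6c_lc.DirectedGlobal
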